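import Pool.Agent.Helper55.TY.Dead
import Pool.Agent.Helper79.CV.Enc

/-!
MP_8ee768_co, project TH-Y': roots of the searches as codes.

`Fits B A M`: the code of `B` agrees with `A` on the mask `M` of the decided blocks.
Everything is in the colex codes of `Helper79.CV.Enc`; the centre is the point 12.
-/

set_option autoImplicit false

namespace Pool.Agent.Helper55.TY

open Finset
open Pool.Agent.Helper89.CV (OddCover ofMask)
open Pool.Agent.Helper97.CV Pool.Agent.Helper79.CV

/-- the blocks of the mask `M` which belong to `B` are exactly those of `A` -/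
def Fits (B : Finset Blk) (A M : ℕ) : Prop := enc 13 5 B &&& M = A

/-- no family with property `H` fits to the root -/
def RootDead (H : Finset Blk → Prop) (A M : ℕ) : Prop := ∀ B, H B → Fits B A M → False

theorem Fits.subset {B : Finset Blk} {A M : ℕ} (h : Fits B A M) : fam 13 5 A ⊆ B := by
  intro s hs
  rw [mem_fam_iff le_rfl] at hs
  obtain ⟨h1, h2⟩ := hs
  unfold Fits at h
  rw [← h, Nat.testBit_and, Bool.and_eq_true, testBit_enc_rk le_rfl B h1,
    decide_eq_true_eq] at h2
  exact h2.1

theorem Fits.disjoint {B : Finset Blk} {A M : ℕ} (h : Fits B A M) :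
    Disjoint (fam 13 5 (M ^^^ A)) B := by
  rw [disjoint_left]
  intro s hs hB
  rw [mem_fam_iff le_rfl] at hs
  obtain ⟨h1, h2⟩ := hs
  unfold Fits at h
  rw [← h, Nat.testBit_xor, Nat.testBit_and, testBit_enc_rk le_rfl B h1,
    decide_eq_true hB, Bool.true_and, Bool.xor_self] at h2
  exact Bool.false_ne_true h2

/-- from the abstract machine to roots -/
theorem Dead.root {H : Finset Blk → Prop} {A M : ℕ}
    (h : Dead H (fam 13 5 A) (fam 13 5 (M ^^^ A))) : RootDead H A M :=
  fun B hB hF => h B hB hF.subset hF.disjoint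

theorem RootDead.mono {H H' : Finset Blk → Prop} {A M : ℕ} (h : RootDead H A M)
    (hH : ∀ B, H' B → H B) : RootDead H' A M := fun B hB hF => h B (hH B hB) hF

theorem Fits.lor {B : Finset Blk} {A M A' M' : ℕ} (h : Fits B A M) (h' : Fits B A' M') :
    Fits B (A ||| A') (M ||| M') := by
  unfold Fits at *
  rw [← h, ← h']
  exact Nat.and_or_distrib_left ..

theorem Fits.restrict {B : Finset Blk} {A M M' : ℕ} (h : Fits B A M) :
    Fits B (A &&& M') (M &&& M') := by
  unfold Fits at *
  rw [← h, Nat.and_assoc]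

theorem Fits.zero (B : Finset Blk) : Fits B 0 0 := Nat.and_zero _

/-- the mask of the blocks through the point 12 -/
def MX : ℕ := (2 ^ 495 - 1) <<< 792

theorem enc_shift12 (B : Finset Blk) : enc 13 5 B >>> 792 = enc 12 4 (link B 12) :=
  enc_shift 12 4 B

theorem enc_mod12 (B : Finset Blk) : enc 13 5 B % 2 ^ 792 = enc 12 5 B :=
  enc_mod 12 4 B

/-- the link of the centre as a root -/
theorem fits_link {B : Finset Blk} {D : ℕ} (h : enc 13 5 B >>> 792 = D) :
    Fits B (D <<< 792) MX := by
  unfold Fits MX
  subst h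
  refine Nat.eq_of_testBit_eq fun i => ?_
  rw [Nat.testBit_and, Nat.testBit_shiftLeft, Nat.testBit_shiftLeft, Nat.testBit_shiftRight,
    Nat.testBit_two_pow_sub_one]
  by_cases hi : 792 ≤ i
  · have h1 : 792 + (i - 792) = i := by omega
    rw [h1, decide_eq_true hi, Bool.true_and, Bool.true_and]
    by_cases h2 : i - 792 < 495
    · rw [decide_eq_true h2, Bool.and_true]
    · rw [decide_eq_false h2, Bool.and_false]
      refine (testBit_enc_ge B ?_).symm
      rw [length_L]
      have : (13 : ℕ).choose 5 = 1287 := by decide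
      omega
  · rw [decide_eq_false hi, Bool.false_and, Bool.and_false, Bool.false_and]

/-- a lane in the frame of the centre as a root: `m` is a mask of blocks avoiding 12 -/
theorem fits_lane {B : Finset Blk} {a m : ℕ} (hm : m < 2 ^ 792) (h : enc 12 5 B &&& m = a) :
    Fits B a m := by
  unfold Fits
  rw [← h, ← enc_mod12]
  refine Nat.eq_of_testBit_eq fun i => ?_
  rw [Nat.testBit_and, Nat.testBit_and, Nat.testBit_mod_two_pow]
  by_cases hi : i < 792
  · rw [decide_eq_true hi, Bool.true_and]
  · rw [decide_eq_false hi, Bool.false_and, Bool.false_and, Nat.testBit_eq_false_of_lt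
      (lt_of_lt_of_le hm (Nat.pow_le_pow_right (by norm_num) (by omega))), Bool.and_false]

/-- the root given by the centre link and two lanes -/
theorem fits_three {B : Finset Blk} {D a b ma mb : ℕ} (hD : enc 13 5 B >>> 792 = D)
    (hma : ma < 2 ^ 792) (hmb : mb < 2 ^ 792) (ha : enc 12 5 B &&& ma = a)
    (hb : enc 12 5 B &&& mb = b) :
    Fits B (D <<< 792 ||| a ||| b) (MX ||| ma ||| mb) :=
  ((fits_link hD).lor (fits_lane hma ha)).lor (fits_lane hmb hb)

theorem fits_two {B : Finset Blk} {D a ma : ℕ} (hD : enc 13 5 B >>> 792 = D)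
    (hma : ma < 2 ^ 792) (ha : enc 12 5 B &&& ma = a) :
    Fits B (D <<< 792 ||| a) (MX ||| ma) :=
  (fits_link hD).lor (fits_lane hma ha)

/-- mask of the blocks avoiding 12 through the point `y` -/
def laneM (y : ℕ) : ℕ :=
  Nat.ofBits (fun i : Fin 792 => ((L 12 5)[i.val]!).testBit y)

theorem laneM_lt (y : ℕ) : laneM y < 2 ^ 792 := Nat.ofBits_lt_two_pow _

end Pool.Agent.Helper55.TY
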