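import Pool.Agent.Helper55.TY.Cbk
import Pool.Agent.Helper28.TY.PairEq

/-!
MP_8ee768_co, project TH-Y': the start of M10 from the byte words of the blocks meeting
`{10, 11, 12}` (`Helper28.TY.KB`, `Helper81.TY.bw`).
-/

set_option autoImplicit false

namespace Pool.Agent.Helper55.TY.M10

open Finset Pool.Agent.Helper63.SIMD Pool.Agent.Helper97.CV
open Pool.Agent.Helper97.CV.Cube Pool.Agent.Helper97.CV.Kill10
open Pool.Agent.Helper89.CV (OddCover ofMask)
open Pool.Agent.Helper79.CV (L mk mem_L ofMask_mk)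
open Pool.Agent.Helper28.TY (KB mem_KB)
open Pool.Agent.Helper81.TY (bw R10 mk_lt_R10 li)

theorem mem_B5_mk {b : Finset (Fin 13)} (hb : b.card = 5) :
    mk b ∈ B5 ↔ b ⊆ Pool.Agent.Helper28.TY.R10 := by
  unfold B5
  rw [List.mem_toFinset, mem_L (by norm_num), ofMask_mk]
  rw [show Pool.Agent.Helper28.TY.R10 = Pool.Agent.Helper81.TY.R10 from rfl, ← mk_lt_R10]
  constructor
  · intro h
    exact lt_of_lt_of_le h.1 (by norm_num)
  · intro h
    exact ⟨lt_of_lt_of_le h (by norm_num), hb⟩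

/-- the blocks meeting `{10, 11, 12}` are the decided blocks at the start -/
theorem KB_eq_Dec {B : Finset Blk} (hB : ∀ b ∈ B, b.card = 5) : KB B = Dec B B5 := by
  unfold Dec KB
  refine filter_congr fun b hb => ?_
  rw [mem_B5_mk (hB b hb)]

theorem mem_Q4_iff {r : ℕ} : r ∈ Q4 ↔ r < 1024 ∧ (ofMask r).card = 4 := by
  unfold Q4
  rw [List.mem_toFinset, mem_L (by norm_num)]
  norm_num

theorem mem_P2_iff {r : ℕ} : r ∈ P2 ↔ r < 1024 ∧ (ofMask r).card = 2 := by
  unfold P2
  rw [List.mem_toFinset, mem_L (by norm_num)]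
  norm_num

theorem Rk_lt {B : Finset Blk} {k : Fin 13} : ∀ r ∈ Rk B k, r < 1024 := fun _ hr =>
  Q4_lt (mem_filter.1 hr).1

/-- the parity word of the known blocks -/
theorem par_word {B : Finset Blk} (hB : OddCover B) :
    bw (fun q => if q.card = 4 then cnt (KB B) q % 2 else 0) =
      g (Rk B 10) ^^^ g (Rk B 11) ^^^ g (Rk B 12) := by
  rw [g_xor, g_xor, g_eq_pk (fun r hr => Q4_lt ((par_start hB r).1 hr).1)]
  unfold bw
  refine pk_congr fun r hr => ?_
  unfold ind
  show (if (ofMask r).card = 4 then cnt (KB B) (ofMask r) % 2 else 0) = _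
  by_cases h4 : (ofMask r).card = 4
  · have hQ : r ∈ Q4 := mem_Q4_iff.2 ⟨hr, h4⟩
    rw [if_pos h4, KB_eq_Dec hB.1]
    by_cases ho : Odd (cnt (Dec B B5) (ofMask r))
    · rw [if_pos ((par_start hB r).2 ⟨hQ, ho⟩)]
      exact Nat.odd_iff.1 ho
    · rw [if_neg fun h => ho ((par_start hB r).1 h).2]
      rw [Nat.not_odd_iff_even] at ho
      exact Nat.even_iff.1 ho
  · rw [if_neg h4, if_neg fun h => h4 (mem_Q4_iff.1 ((par_start hB r).1 h).1).2]

/-- THE START OF M10 from the words of the blocks meeting `{10, 11, 12}` -/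
theorem start_of_KB {K : ℕ → Bool} {P f : ℕ} {B : Finset Blk} (hB : OddCover B)
    (hK : KillOK K B)
    (hP : P = bw fun q => if q.card = 4 then cnt (KB B) q % 2 else 0)
    {h : Finset (Fin 13) → ℕ} (hf : f = bw h)
    (hle : ∀ s, s ⊆ R10 → s.card = 2 → h s ≤ Lam (KB B) s)
    (h0 : ∀ s, s ⊆ R10 → s.card ≠ 2 → h s = 0) : Start K P f B := by
  refine ⟨hB, hK, hP.trans (par_word hB), fun r => if r ∈ P2 then h (ofMask r) else 0, ?_, ?_, ?_⟩
  · rw [hf]
    unfold bw
    refine pk_congr fun r hr => ?_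
    by_cases h2 : r ∈ P2
    · rw [if_pos h2]
    · rw [if_neg h2]
      exact h0 _ (Pool.Agent.Helper81.TY.ofMask_subset_R10 hr)
        fun hc => h2 (mem_P2_iff.2 ⟨hr, hc⟩)
  · intro r hr
    have h1 := mem_P2_iff.1 hr
    show (if r ∈ P2 then h (ofMask r) else 0) ≤ _
    rw [if_pos hr, ← KB_eq_Dec hB.1]
    exact hle _ (Pool.Agent.Helper81.TY.ofMask_subset_R10 h1.1) h1.2
  · intro r hr
    exact if_neg hr

/-- the parity word as the xor of the three links (`Helper81.TY.li`) -/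
theorem par_li {B : Finset Blk} (hB : OddCover B) :
    bw (fun q => if q.card = 4 then li B 12 q ^^^ li B 11 q ^^^ li B 10 q else 0) =
      g (Rk B 10) ^^^ g (Rk B 11) ^^^ g (Rk B 12) := by
  rw [← par_word hB]
  refine Pool.Agent.Helper81.TY.bw_congr fun q hq => ?_
  by_cases h4 : q.card = 4
  · rw [if_pos h4, if_pos h4, Pool.Agent.Helper28.TY.par_KB hB.1 h4 hq]
  · rw [if_neg h4, if_neg h4]

/-- THE START OF M10 for helper81's words: `fs + pc - 4` on the pairs -/
theorem start_of_fs_pc {K : ℕ → Bool} {P f : ℕ} {B : Finset Blk} (hB : OddCover B)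
    (hK : KillOK K B)
    (hP : P = bw fun q => if q.card = 4 then li B 12 q ^^^ li B 11 q ^^^ li B 10 q else 0)
    (hf : f = bw fun s => if s.card = 2 then
      Pool.Agent.Helper81.TY.fs B s + Pool.Agent.Helper81.TY.pc B s - 4 else 0) :
    Start K P f B := by
  refine start_of_KB hB hK ?_ hf ?_ ?_
  · rw [hP, par_li hB, par_word hB]
  · intro s hs h2
    rw [if_pos h2, Pool.Agent.Helper28.TY.fs_pc_eq hB hs h2]
    exact le_of_eq (Nat.add_sub_cancel _ _)
  · intro s _ h2
    rw [if_neg h2]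

end Pool.Agent.Helper55.TY.M10
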