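import Pool.Agent.Helper97.CV.Count

/-!
MP_8ee768_co, project TH-Y': the abstract search machine.

`Dead H I O`: no family `B` with property `H` contains all blocks of `I` and none of `O`.
A search engine keeps words for: the parities of `cnt I q`, the decided blocks `I ∪ O`, the
numbers `Lam I {u, v}`. All steps of an engine are instances of the closure lemmas below.
-/

set_option autoImplicit false

namespace Pool.Agent.Helper55.TY

open Finset Pool.Agent.Helper89.CV Pool.Agent.Helper97.CV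

/-- blocks are finsets of points -/
abbrev Blk := Finset (Fin 13)

/-- no family with property `H` contains `I` and avoids `O` -/
def Dead (H : Finset Blk → Prop) (I O : Finset Blk) : Prop :=
  ∀ B, H B → I ⊆ B → Disjoint O B → False

variable {H : Finset Blk → Prop} {I O : Finset Blk}

theorem Dead.mono {H' : Finset Blk → Prop} {I' O' : Finset Blk} (h : Dead H I O)
    (hH : ∀ B, H' B → H B) (hI : I ⊆ I') (hO : O ⊆ O') : Dead H' I' O' :=
  fun B hB hIB hOB => h B (hH B hB) (hI.trans hIB) (disjoint_of_subset_left hO hOB)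

/-- binary split on a block -/
theorem Dead.split (b : Blk) (h1 : Dead H (insert b I) O) (h2 : Dead H I (insert b O)) :
    Dead H I O := by
  intro B hB hI hO
  by_cases hb : b ∈ B
  · exact h1 B hB (insert_subset hb hI) hO
  · exact h2 B hB hI (disjoint_insert_left.2 ⟨hb, hO⟩)

/-- a block which is in and out -/
theorem Dead.clash {b : Blk} (h1 : b ∈ I) (h2 : b ∈ O) : Dead H I O :=
  fun _ _ hI hO => disjoint_left.1 hO h2 (hI h1)

/-- sets of a wrong size are out -/
theorem Dead.of_card (hH : ∀ B, H B → OddCover B) {b : Blk} (hb : b.card ≠ 5) (h : b ∈ I) :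
    Dead H I O :=
  fun B hB hI _ => hb ((hH B hB).1 b (hI h))

/-! ### counting in `I` -/

theorem cnt_mono {A B : Finset Blk} (h : A ⊆ B) (s : Blk) : cnt A s ≤ cnt B s :=
  card_le_card (filter_subset_filter _ h)

theorem ex_mono {A B : Finset Blk} (h : A ⊆ B) (s : Blk) : ex A s ≤ ex B s :=
  Nat.div_le_div_right (cnt_mono h s)

theorem Lam_mono {A B : Finset Blk} (h : A ⊆ B) (s : Blk) : Lam A s ≤ Lam B s := by
  unfold Lam LamW
  exact sum_le_sum fun q _ => ex_mono h q

theorem cnt_insert {b : Blk} (hb : b ∉ I) (s : Blk) :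
    cnt (insert b I) s = cnt I s + if s ⊆ b then 1 else 0 := by
  unfold cnt
  rw [filter_insert]
  split_ifs with h
  · rw [card_insert_of_notMem]
    intro h1
    exact hb (mem_filter.1 h1).1
  · rfl

theorem ex_insert {b : Blk} (hb : b ∉ I) (s : Blk) :
    ex (insert b I) s = ex I s + if s ⊆ b ∧ Odd (cnt I s) then 1 else 0 := by
  unfold ex
  rw [cnt_insert hb]
  rcases Nat.even_or_odd (cnt I s) with h | h
  · obtain ⟨t, ht⟩ := h
    have h1 : ¬ Odd (cnt I s) := by
      rw [Nat.not_odd_iff_even]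
      exact ⟨t, ht⟩
    rw [if_neg (fun h2 : s ⊆ b ∧ Odd (cnt I s) => h1 h2.2)]
    split_ifs <;> omega
  · obtain ⟨t, ht⟩ := h
    have h1 : Odd (cnt I s) := ⟨t, ht⟩
    by_cases h2 : s ⊆ b
    · rw [if_pos h2, if_pos ⟨h2, h1⟩]
      omega
    · rw [if_neg h2, if_neg (fun h3 : s ⊆ b ∧ Odd (cnt I s) => h2 h3.1)]
      omega

/-- the quads of `b` through `s` which get a further excess when `b` is added -/
def newBad (I : Finset Blk) (b s : Blk) : Finset Blk :=
  quads.filter fun q => s ⊆ q ∧ q ⊆ b ∧ Odd (cnt I q)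

theorem Lam_insert {b : Blk} (hb : b ∉ I) (s : Blk) :
    Lam (insert b I) s = Lam I s + (newBad I b s).card := by
  unfold Lam LamW newBad
  rw [sum_congr rfl fun q _ => ex_insert hb q, sum_add_distrib]
  congr 1
  rw [card_filter, sum_filter]
  refine sum_congr rfl fun q _ => ?_
  by_cases h : s ⊆ q
  · rw [if_pos h]
    refine if_congr ?_ rfl rfl
    constructor
    · exact fun h1 => ⟨h, h1.1, h1.2⟩
    · exact fun h1 => ⟨h1.2.1, h1.2.2⟩
  · rw [if_neg h, if_neg fun h1 : s ⊆ q ∧ q ⊆ b ∧ Odd (cnt I q) => h h1.1]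

theorem cnt_empty (s : Blk) : cnt ∅ s = 0 := by
  unfold cnt
  rw [filter_empty, card_empty]

theorem Lam_empty' (s : Blk) : Lam ∅ s = 0 := by
  unfold Lam LamW ex
  refine sum_eq_zero fun q _ => ?_
  rw [cnt_empty, Nat.zero_div]

/-! ### parity rules -/

/-- a quad in an even number of blocks of `I`, all blocks through it decided -/
theorem Dead.par (hH : ∀ B, H B → OddCover B) {q : Blk} (hq : q.card = 4)
    (he : Even (cnt I q)) (hd : ∀ b : Blk, b.card = 5 → q ⊆ b → b ∈ I ∨ b ∈ O) :
    Dead H I O := by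
  intro B hB hI hO
  have h1 : B.filter (fun b => q ⊆ b) = I.filter (fun b => q ⊆ b) := by
    ext b
    simp only [mem_filter]
    constructor
    · rintro ⟨h1, h2⟩
      refine ⟨?_, h2⟩
      rcases hd b ((hH B hB).1 b h1) h2 with h3 | h3
      · exact h3
      · exact absurd h1 (disjoint_left.1 hO h3)
    · rintro ⟨h1, h2⟩
      exact ⟨hI h1, h2⟩
  have h2 := (hH B hB).2 q hq
  rw [h1] at h2
  exact (Nat.not_odd_iff_even.2 he) h2

/-- the same with an odd number of blocks of `I` and one free block `b`: `b` is out -/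
theorem Dead.force_out (hH : ∀ B, H B → OddCover B) {q : Blk} (hq : q.card = 4)
    (he : Odd (cnt I q)) {b : Blk} (hqb : q ⊆ b) (hbI : b ∉ I)
    (hd : ∀ c : Blk, c.card = 5 → q ⊆ c → c ∈ I ∨ c ∈ O ∨ c = b)
    (h : Dead H I (insert b O)) : Dead H I O := by
  refine Dead.split b (Dead.par hH hq ?_ ?_) h
  · rw [cnt_insert hbI, if_pos hqb]
    exact Odd.add_one he
  · intro c hc hqc
    rcases hd c hc hqc with h1 | h1 | h1
    · exact Or.inl (mem_insert_of_mem h1)
    · exact Or.inr h1
    · exact Or.inl (h1 ▸ mem_insert_self _ _)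

/-- an even number of blocks of `I` and one free block `b`: `b` is in -/
theorem Dead.force_in (hH : ∀ B, H B → OddCover B) {q : Blk} (hq : q.card = 4)
    (he : Even (cnt I q)) {b : Blk}
    (hd : ∀ c : Blk, c.card = 5 → q ⊆ c → c ∈ I ∨ c ∈ O ∨ c = b)
    (h : Dead H (insert b I) O) : Dead H I O := by
  refine Dead.split b h (Dead.par hH hq he ?_)
  intro c hc hqc
  rcases hd c hc hqc with h1 | h1 | h1
  · exact Or.inl h1
  · exact Or.inr (mem_insert_of_mem h1)
  · exact Or.inr (h1 ▸ mem_insert_self _ _)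

/-- the children of a branching: the head is in, for the later ones the head is out -/
def Branch (H : Finset Blk → Prop) (I : Finset Blk) : Finset Blk → List Blk → Prop
  | _, [] => True
  | O, b :: l => Dead H (insert b I) O ∧ Branch H I (insert b O) l

/-- branching at a quad with an even number of blocks of `I` -/
theorem Dead.branch (hH : ∀ B, H B → OddCover B) {q : Blk} (hq : q.card = 4)
    (he : Even (cnt I q)) : ∀ (l : List Blk) (O : Finset Blk),
    (∀ c : Blk, c.card = 5 → q ⊆ c → c ∈ I ∨ c ∈ O ∨ c ∈ l) → Branch H I O l → Dead H I O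
  | [], O, hd, _ => by
    refine Dead.par hH hq he fun c hc hqc => ?_
    rcases hd c hc hqc with h1 | h1 | h1
    · exact Or.inl h1
    · exact Or.inr h1
    · exact absurd h1 (List.not_mem_nil)
  | b :: l, O, hd, h => by
    refine Dead.split b h.1 (Dead.branch hH hq he l (insert b O) ?_ h.2)
    intro c hc hqc
    rcases hd c hc hqc with h1 | h1 | h1
    · exact Or.inl h1
    · exact Or.inr (Or.inl (mem_insert_of_mem h1))
    · rcases List.mem_cons.1 h1 with h2 | h2
      · exact Or.inr (Or.inl (h2 ▸ mem_insert_self _ _))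
      · exact Or.inr (Or.inr h2)

/-! ### bounds -/

/-- pair caps -/
theorem Dead.pair (hH : ∀ B, H B → OddCover B) {u v : Fin 13} (huv : u ≠ v) {c : ℕ}
    (hc : ∀ B, H B → mm B u v ≤ c) (h : 1 + 3 * c < Lam I {u, v}) : Dead H I O := by
  intro B hB hI _
  have h1 := Lam_pair (hH B hB) huv
  have h2 := Lam_mono hI {u, v}
  have h3 := hc B hB
  omega

/-- point caps -/
theorem Dead.point (hH : ∀ B, H B → OddCover B) {z : Fin 13} {c : ℕ}
    (hc : ∀ B, H B → MM B z ≤ c) (h : 4 + c < Lam I {z}) : Dead H I O := by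
  intro B hB hI _
  have h1 := Lam_point (hH B hB) z
  have h2 := Lam_mono hI {z}
  have h3 := hc B hB
  omega

/-- total cap -/
theorem Dead.total (hH : ∀ B, H B → OddCover B) (h157 : ∀ B, H B → B.card ≤ 157)
    (h : 35 < Lam I ∅) : Dead H I O := by
  intro B hB hI _
  have h1 := Lam_empty_le (hH B hB) (h157 B hB)
  have h2 := Lam_mono hI ∅
  omega

/-- lower bound of `MM` from a state, with known lower bounds `p` of the pairs, rounded up -/
def mlowP (p : Fin 13 → Fin 13 → ℕ) (g : Blk → ℕ) (z : Fin 13) : ℕ :=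
  2 * ((∑ v ∈ ({z} : Finset (Fin 13))ᶜ, max (p z v) ((LamW g {z, v} + 1) / 3) + 1) / 2)

theorem mlowP_le {B : Finset Blk} (hB : OddCover B) {g : Blk → ℕ}
    (hg : ∀ q, q.card = 4 → g q ≤ ex B q) {p : Fin 13 → Fin 13 → ℕ}
    (hp : ∀ u v, u ≠ v → p u v ≤ mm B u v) (z : Fin 13) : mlowP p g z ≤ MM B z := by
  have h1 : ∑ v ∈ ({z} : Finset (Fin 13))ᶜ, max (p z v) ((LamW g {z, v} + 1) / 3) ≤ MM B z := by
    unfold MM
    refine sum_le_sum fun v hv => ?_
    have hzv : z ≠ v := by
      rw [mem_compl, mem_singleton] at hv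
      exact fun h => hv h.symm
    exact max_le (hp z v hzv) (mm_ge hB hg hzv)
  obtain ⟨t, ht⟩ := MM_even hB z
  unfold mlowP
  omega

/-- row cap: the row sum of a point exceeds its cap -/
theorem Dead.row (hH : ∀ B, H B → OddCover B) {z : Fin 13} {c : ℕ}
    (hc : ∀ B, H B → MM B z ≤ c) {p : Fin 13 → Fin 13 → ℕ}
    (hp : ∀ B, H B → ∀ u v, u ≠ v → p u v ≤ mm B u v)
    (h : c < mlowP p (ex I) z) : Dead H I O := by
  intro B hB hI _
  have h1 := mlowP_le (hH B hB) (fun q _ => ex_mono hI q) (hp B hB) z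
  have h2 := hc B hB
  omega

/-- the kill test with lower bounds of points and pairs -/
theorem Dead.kill (hH : ∀ B, H B → OddCover B) (h157 : ∀ B, H B → B.card ≤ 157)
    {l : Fin 13 → ℕ} (hl : ∀ B, H B → ∀ z, l z ≤ MM B z)
    {p : Fin 13 → Fin 13 → ℕ} (hp : ∀ B, H B → ∀ u v, u ≠ v → p u v ≤ mm B u v)
    (h : 88 < ∑ z, max (l z) (mlowP p (ex I) z)) : Dead H I O := by
  intro B hB hI _
  have h1 : ∑ z, max (l z) (mlowP p (ex I) z) ≤ ∑ z, MM B z :=
    sum_le_sum fun z _ => max_le (hl B hB z)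
      (mlowP_le (hH B hB) (fun q _ => ex_mono hI q) (hp B hB) z)
  have h2 := sum_MM_le (hH B hB) (h157 B hB)
  omega

/-- the kill test in helper97's form (no pair bounds) -/
theorem Dead.kill' (hH : ∀ B, H B → OddCover B) (h157 : ∀ B, H B → B.card ≤ 157)
    {l : Fin 13 → ℕ} (hl : ∀ B, H B → ∀ z, l z ≤ MM B z)
    (h : 88 < ∑ z, max (l z) (mlow (ex I) z)) : Dead H I O := by
  intro B hB hI _
  have h1 := Helper97.CV.kill (hH B hB) (h157 B hB) (g := ex I) (fun q _ => ex_mono hI q)
    (hl B hB)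
  omega

/-- extra known bad quads: any weight `g` below `ex B` for all `B` in question -/
theorem Dead.killG (hH : ∀ B, H B → OddCover B) (h157 : ∀ B, H B → B.card ≤ 157)
    {l : Fin 13 → ℕ} (hl : ∀ B, H B → ∀ z, l z ≤ MM B z)
    {g : Blk → ℕ} (hg : ∀ B, H B → I ⊆ B → Disjoint O B → ∀ q, q.card = 4 → g q ≤ ex B q)
    (h : 88 < ∑ z, max (l z) (mlow g z)) : Dead H I O := by
  intro B hB hI hO
  have h1 := Helper97.CV.kill (hH B hB) (h157 B hB) (g := g) (hg B hB hI hO) (hl B hB)
  omega

/-- `b` is out because `b` in is dead -/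
theorem Dead.out (b : Blk) (h1 : Dead H (insert b I) O) (h2 : Dead H I (insert b O)) :
    Dead H I O := Dead.split b h1 h2

/-! ### the start -/

theorem Dead.false {B : Finset Blk} (h : Dead H ∅ ∅) (hB : H B) : False :=
  h B hB (empty_subset B) (disjoint_empty_left B)

/-- a state read off from `B` itself -/
theorem Dead.apply {B : Finset Blk} (h : Dead H I O) (hB : H B) (hI : ∀ b ∈ I, b ∈ B)
    (hO : ∀ b ∈ O, b ∉ B) : False :=
  h B hB hI (disjoint_left.2 hO)

/-- completeness form: `C` holds for all `B` unless a state is dead -/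
theorem Dead.by_contra {C : Finset Blk → Prop} (h : Dead (fun B => H B ∧ ¬ C B) I O)
    {B : Finset Blk} (hB : H B) (hI : I ⊆ B) (hO : Disjoint O B) : C B := by
  by_contra h1
  exact h B ⟨hB, h1⟩ hI hO

/-! ### a tree type -/

/-- decision trees: `kill` = a bound is violated, `par q` = quad `q` is decided and even -/
inductive Tree
  | kill : Tree
  | par : Blk → Tree
  | split : Blk → Tree → Tree → Tree

/-- correctness of a tree, relative to a test `K` of the states at the leaves -/
def Tree.Ok (K : Finset Blk → Prop) : Tree → Finset Blk → Finset Blk → Prop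
  | kill, I, _ => K I
  | par q, I, O => q.card = 4 ∧ Even (cnt I q) ∧
      ∀ b : Blk, b.card = 5 → q ⊆ b → b ∈ I ∨ b ∈ O
  | split b t1 t2, I, O => t1.Ok K (insert b I) O ∧ t2.Ok K I (insert b O)

theorem Tree.sound (hH : ∀ B, H B → OddCover B) {K : Finset Blk → Prop}
    (hK : ∀ B, H B → ∀ I, I ⊆ B → ¬ K I) : ∀ (t : Tree) (I O : Finset Blk),
    t.Ok K I O → Dead H I O
  | kill, _, _, h => fun B hB hI _ => hK B hB _ hI h
  | par _, _, _, h => Dead.par hH h.1 h.2.1 h.2.2
  | split b t1 t2, _, _, h =>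
    Dead.split b (Tree.sound hH hK t1 _ _ h.1) (Tree.sound hH hK t2 _ _ h.2)

end Pool.Agent.Helper55.TY
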