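import Pool.Agent.Helper97.CV.Cube

/-!
MP_8ee768_co, project TH-Y': sets of masks as numbers, `g S` is the sum of `2 ^ (8 r)` over `r ∈ S`.
-/

set_option autoImplicit false

namespace Pool.Agent.Helper55.TY

open Finset Pool.Agent.Helper63.SIMD Pool.Agent.Helper97.CV

/-- the word of a set of masks, fields of 8 bits -/
def g (S : Finset ℕ) : ℕ := ∑ r ∈ S, 2 ^ (8 * r)

/-- indicator -/
def ind (S : Finset ℕ) (r : ℕ) : ℕ := if r ∈ S then 1 else 0

theorem ind_lt (S : Finset ℕ) (r : ℕ) : ind S r < 2 ^ 8 := by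
  unfold ind
  split_ifs <;> norm_num

theorem ind_le (S : Finset ℕ) (r : ℕ) : ind S r ≤ 1 := by
  unfold ind
  split_ifs <;> norm_num

theorem g_eq_pk {S : Finset ℕ} {N : ℕ} (h : ∀ r ∈ S, r < N) : g S = pk 8 N (ind S) := by
  unfold g pk ind
  rw [sum_congr rfl (fun r _ => ite_mul (r ∈ S) 1 0 (2 ^ (8 * r)))]
  simp only [one_mul, zero_mul]
  rw [← sum_filter]
  refine sum_congr ?_ fun _ _ => rfl
  ext r
  simp only [mem_filter, mem_range]
  exact ⟨fun hr => ⟨h r hr, hr⟩, fun hr => hr.2⟩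

theorem exists_bound (S T : Finset ℕ) : ∃ N, (∀ r ∈ S, r < N) ∧ ∀ r ∈ T, r < N := by
  refine ⟨max (S.sup id) (T.sup id) + 1, fun r hr => ?_, fun r hr => ?_⟩
  · have := le_sup (f := id) hr
    simp only [id] at this
    have := le_max_left (S.sup id) (T.sup id)
    omega
  · have := le_sup (f := id) hr
    simp only [id] at this
    have := le_max_right (S.sup id) (T.sup id)
    omega

theorem g_land (S T : Finset ℕ) : g S &&& g T = g (S ∩ T) := by
  obtain ⟨N, h1, h2⟩ := exists_bound S T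
  rw [g_eq_pk h1, g_eq_pk h2, g_eq_pk (S := S ∩ T) (N := N) (fun r hr => h1 r (mem_inter.1 hr).1),
    pk_land (fun r _ => ind_lt S r) (fun r _ => ind_lt T r)]
  refine pk_congr fun r _ => ?_
  unfold ind
  by_cases hS : r ∈ S <;> by_cases hT : r ∈ T <;> simp [hS, hT]

theorem g_xor (S T : Finset ℕ) : g S ^^^ g T = g (symmDiff S T) := by
  obtain ⟨N, h1, h2⟩ := exists_bound S T
  rw [g_eq_pk h1, g_eq_pk h2, g_eq_pk (S := symmDiff S T) (N := N) (fun r hr => by
    rcases mem_symmDiff.1 hr with h | h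
    · exact h1 r h.1
    · exact h2 r h.1),
    pk_xor (fun r _ => ind_lt S r) (fun r _ => ind_lt T r)]
  refine pk_congr fun r _ => ?_
  unfold ind
  by_cases hS : r ∈ S <;> by_cases hT : r ∈ T <;> simp [mem_symmDiff, hS, hT]

theorem g_empty : g ∅ = 0 := sum_empty

theorem g_singleton (m : ℕ) : g {m} = 2 ^ (8 * m) := sum_singleton _ _

theorem g_eq_zero {S : Finset ℕ} : g S = 0 ↔ S = ∅ := by
  constructor
  · intro h
    unfold g at h
    rw [sum_eq_zero_iff] at h
    refine eq_empty_of_forall_notMem fun r hr => ?_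
    exact absurd (h r hr) (Nat.two_pow_pos _).ne'
  · rintro rfl
    exact g_empty

theorem g_mul_pow (S : Finset ℕ) (m : ℕ) : g S * 2 ^ (8 * m) = g (S.image (fun r => m + r)) := by
  unfold g
  rw [sum_mul, sum_image (fun a _ b _ h => Nat.add_left_cancel h)]
  refine sum_congr rfl fun r _ => ?_
  rw [← pow_add]
  congr 1
  ring

/-! ### the lowest member -/

theorem low_aux (k y : ℕ) :
    (2 ^ k * (2 * y + 1)) &&& (2 ^ k * (2 * y + 1) - 1) = 2 ^ k * (2 * y) ∧
    (2 ^ k * (2 * y + 1)) &&& ((2 ^ k * (2 * y + 1)) ^^^ (2 ^ k * (2 * y + 1) - 1)) = 2 ^ k := by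
  have hk := Nat.two_pow_pos k
  have e1 : 2 ^ k * (2 * y + 1) - 1 = 2 ^ k * (2 * y) + (2 ^ k - 1) := by
    rw [mul_add, mul_one]
    omega
  have e2 : 2 ^ k * (2 * y + 1) = 2 ^ k * (2 * y + 1) + 0 := rfl
  have hl : (2 * y + 1) &&& (2 * y) = 2 * y := by
    have h := land_cons (W := 1) (x := y) (y := y) (p := 1) (q := 0) (by norm_num) (by norm_num)
    rw [pow_one, Nat.and_self, Nat.and_zero, Nat.add_zero, Nat.add_zero] at h
    exact h
  have hx : (2 * y + 1) ^^^ (2 * y) = 1 := by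
    have h := xor_cons (W := 1) (x := y) (y := y) (p := 1) (q := 0) (by norm_num) (by norm_num)
    rw [pow_one, Nat.xor_self, Nat.xor_zero, Nat.add_zero, mul_zero, Nat.zero_add] at h
    exact h
  have h1 : (2 * y + 1) &&& 1 = 1 := by
    have h := land_cons (W := 1) (x := y) (y := 0) (p := 1) (q := 1) (by norm_num) (by norm_num)
    rw [pow_one, Nat.and_zero, mul_zero, Nat.and_self, Nat.zero_add] at h
    exact h
  constructor
  · rw [e1]
    have h := land_cons (W := k) (x := 2 * y + 1) (y := 2 * y) (p := 0) (q := 2 ^ k - 1)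
      hk (by omega)
    rw [Nat.zero_and, hl, Nat.add_zero, Nat.add_zero] at h
    exact h
  · rw [e1]
    have h := xor_cons (W := k) (x := 2 * y + 1) (y := 2 * y) (p := 0) (q := 2 ^ k - 1)
      hk (by omega)
    rw [Nat.zero_xor, hx, Nat.add_zero] at h
    rw [h]
    have h' := land_cons (W := k) (x := 2 * y + 1) (y := 1) (p := 0) (q := 2 ^ k - 1)
      hk (by omega)
    rw [Nat.zero_and, h1, Nat.add_zero, Nat.add_zero] at h'
    rw [h', mul_one, Nat.add_zero]

theorem g_erase {S : Finset ℕ} {m : ℕ} (hm : m ∈ S) : g S = g (S.erase m) + 2 ^ (8 * m) := by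
  unfold g
  exact (sum_erase_add _ _ hm).symm

theorem g_low {S : Finset ℕ} {m : ℕ} (hm : m ∈ S) (hmin : ∀ r ∈ S, m ≤ r) :
    g S &&& (g S - 1) = g (S.erase m) ∧ g S &&& (g S ^^^ (g S - 1)) = g {m} := by
  have h1 : 2 ^ (8 * m) * 2 ∣ g (S.erase m) := by
    unfold g
    refine dvd_sum fun r hr => ?_
    rw [mem_erase] at hr
    have h2 := hmin r hr.2
    rw [← pow_succ]
    exact pow_dvd_pow 2 (by omega)
  obtain ⟨y, hy⟩ := h1
  have h2 : g S = 2 ^ (8 * m) * (2 * y + 1) := by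
    rw [g_erase hm, hy]
    ring
  rw [g_singleton, hy, h2]
  obtain ⟨h3, h4⟩ := low_aux (8 * m) y
  exact ⟨h3.trans (mul_assoc _ _ _).symm, h4⟩

end Pool.Agent.Helper55.TY
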