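import Pool.Agent.Helper97.CV.Kill10Sound

/-!
MP_8ee768_co, project TH-Y': three finite checks on masks of ten points.

The checks are run by the kernel on printed lists of masks with loops over `List.rec` and with cheap
tests for a power of two and for four bits (helper63's version of the file: the first version needed
5 GB in one declaration; the three statements are the same).
-/

set_option autoImplicit false

namespace Pool.Agent.Helper55.TY.M10

open Finset
open Pool.Agent.Helper79.CV (L)
open Pool.Agent.Helper89.CV (ofMask)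

/-- `List.all` by the recursor -/
def allR (p : ℕ → Bool) (l : List ℕ) : Bool :=
  List.rec (motive := fun _ => Bool) true (fun h _ ih => Bool.rec false ih (p h)) l

theorem allR_eq (p : ℕ → Bool) (l : List ℕ) : allR p l = l.all p := by
  induction l with
  | nil => rfl
  | cons h t ih =>
    have h1 : allR p (h :: t) = Bool.rec (motive := fun _ => Bool) false (allR p t) (p h) := rfl
    rw [h1, List.all_cons, ← ih]
    cases p h <;> rfl

/-- the masks of four of ten points -/
def l4 : List ℕ :=
  [15, 23, 27, 29, 30, 39, 43, 45, 46, 51, 53, 54, 57, 58, 60, 71, 75, 77, 78, 83, 85, 86,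
   89, 90, 92, 99, 101, 102, 105, 106, 108, 113, 114, 116, 120, 135, 139, 141, 142, 147,
   149, 150, 153, 154, 156, 163, 165, 166, 169, 170, 172, 177, 178, 180, 184, 195, 197, 198,
   201, 202, 204, 209, 210, 212, 216, 225, 226, 228, 232, 240, 263, 267, 269, 270, 275, 277,
   278, 281, 282, 284, 291, 293, 294, 297, 298, 300, 305, 306, 308, 312, 323, 325, 326, 329,
   330, 332, 337, 338, 340, 344, 353, 354, 356, 360, 368, 387, 389, 390, 393, 394, 396, 401,
   402, 404, 408, 417, 418, 420, 424, 432, 449, 450, 452, 456, 464, 480, 519, 523, 525, 526,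
   531, 533, 534, 537, 538, 540, 547, 549, 550, 553, 554, 556, 561, 562, 564, 568, 579, 581,
   582, 585, 586, 588, 593, 594, 596, 600, 609, 610, 612, 616, 624, 643, 645, 646, 649, 650,
   652, 657, 658, 660, 664, 673, 674, 676, 680, 688, 705, 706, 708, 712, 720, 736, 771, 773,
   774, 777, 778, 780, 785, 786, 788, 792, 801, 802, 804, 808, 816, 833, 834, 836, 840, 848,
   864, 897, 898, 900, 904, 912, 928, 960]

/-- the masks of five of ten points -/
def l5 : List ℕ :=
  [31, 47, 55, 59, 61, 62, 79, 87, 91, 93, 94, 103, 107, 109, 110, 115, 117, 118, 121, 122,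
   124, 143, 151, 155, 157, 158, 167, 171, 173, 174, 179, 181, 182, 185, 186, 188, 199, 203,
   205, 206, 211, 213, 214, 217, 218, 220, 227, 229, 230, 233, 234, 236, 241, 242, 244, 248,
   271, 279, 283, 285, 286, 295, 299, 301, 302, 307, 309, 310, 313, 314, 316, 327, 331, 333,
   334, 339, 341, 342, 345, 346, 348, 355, 357, 358, 361, 362, 364, 369, 370, 372, 376, 391,
   395, 397, 398, 403, 405, 406, 409, 410, 412, 419, 421, 422, 425, 426, 428, 433, 434, 436,
   440, 451, 453, 454, 457, 458, 460, 465, 466, 468, 472, 481, 482, 484, 488, 496, 527, 535,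
   539, 541, 542, 551, 555, 557, 558, 563, 565, 566, 569, 570, 572, 583, 587, 589, 590, 595,
   597, 598, 601, 602, 604, 611, 613, 614, 617, 618, 620, 625, 626, 628, 632, 647, 651, 653,
   654, 659, 661, 662, 665, 666, 668, 675, 677, 678, 681, 682, 684, 689, 690, 692, 696, 707,
   709, 710, 713, 714, 716, 721, 722, 724, 728, 737, 738, 740, 744, 752, 775, 779, 781, 782,
   787, 789, 790, 793, 794, 796, 803, 805, 806, 809, 810, 812, 817, 818, 820, 824, 835, 837,
   838, 841, 842, 844, 849, 850, 852, 856, 865, 866, 868, 872, 880, 899, 901, 902, 905, 906,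
   908, 913, 914, 916, 920, 929, 930, 932, 936, 944, 961, 962, 964, 968, 976, 992]

theorem l4_eq : L 10 4 = l4 := by decide +kernel

theorem l5_eq : L 10 5 = l5 := by decide +kernel

/-- a power of two below 1024 -/
def isP (x : ℕ) : Bool :=
  Bool.rec false (Nat.ble 1 x) (Nat.beq (Nat.land x (Nat.sub x 1)) 0)

theorem isP_all : allR (fun x => (L 10 1).contains x == isP x) (List.range 1024) = true := by
  decide +kernel

theorem isP_eq {x : ℕ} (hx : x < 1024) : (L 10 1).contains x = isP x := by
  have h := isP_all
  rw [allR_eq, List.all_eq_true] at h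
  exact beq_iff_eq.1 (h x (List.mem_range.2 hx))

theorem l5_lt : allR (fun m => Nat.ble m 1023) l5 = true := by decide +kernel

/-- the test of one pair of masks -/
def t45 (m r : ℕ) : Bool :=
  Bool.rec
    (Bool.rec true (Bool.rec true false (isP (Nat.sub m r))) (Nat.ble r m))
    (Bool.rec false (isP (Nat.sub m r)) (Nat.ble r m))
    (Nat.beq (Nat.land r m) r)

theorem t45_eq (m r : ℕ) :
    t45 m r = (Nat.beq (Nat.land r m) r == (Nat.ble r m && isP (Nat.sub m r))) := by
  unfold t45
  cases Nat.beq (Nat.land r m) r <;> cases Nat.ble r m <;> cases isP (Nat.sub m r) <;> rfl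

theorem t45_all : allR (fun m => allR (t45 m) l4) l5 = true := by decide +kernel

theorem sub45 : (L 10 5).all (fun m => (L 10 4).all (fun r =>
    Nat.beq (Nat.land r m) r == (Nat.ble r m && (L 10 1).contains (Nat.sub m r)))) = true := by
  rw [l5_eq, l4_eq, List.all_eq_true]
  intro m hm
  rw [List.all_eq_true]
  intro r hr
  have h := t45_all
  rw [allR_eq, List.all_eq_true] at h
  have h1 := h m hm
  rw [allR_eq, List.all_eq_true] at h1
  have h2 := h1 r hr
  have h3 := l5_lt
  rw [allR_eq, List.all_eq_true] at h3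
  have h4 : m ≤ 1023 := Nat.le_of_ble_eq_true (h3 m hm)
  have h5 : (L 10 1).contains (Nat.sub m r) = isP (Nat.sub m r) :=
    isP_eq (lt_of_le_of_lt (Nat.sub_le m r) (by omega))
  rw [h5, ← t45_eq]
  exact h2

/-- four bits -/
def pc4 (x : ℕ) : Bool :=
  (fun y => (fun z => Bool.rec (Nat.beq (Nat.land z (Nat.sub z 1)) 0) false (Nat.beq z 0))
    (Nat.land y (Nat.sub y 1))) ((fun v => Nat.land v (Nat.sub v 1)) (Nat.land x (Nat.sub x 1)))

theorem l4_pc4 : allR pc4 (L 10 4) = true := by decide +kernel

theorem pair_pc4 : allR (fun r => allR (fun q =>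
    Bool.rec (Bool.rec true false (pc4 (Nat.add r q))) true
      (Nat.beq (Nat.land r (Nat.add r q)) r)) (L 10 2)) (L 10 2) = true := by decide +kernel

theorem sub24 : (L 10 2).all (fun r => (L 10 2).all (fun q =>
    !((L 10 4).contains (r + q)) || Nat.beq (Nat.land r (r + q)) r)) = true := by
  rw [List.all_eq_true]
  intro r hr
  rw [List.all_eq_true]
  intro q hq
  have h := pair_pc4
  rw [allR_eq, List.all_eq_true] at h
  have h1 := h r hr
  rw [allR_eq, List.all_eq_true] at h1
  have h2 : (Bool.rec (Bool.rec true false (pc4 (r + q))) true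
    (Nat.beq (Nat.land r (r + q)) r) : Bool) = true := h1 q hq
  cases hc : (L 10 4).contains (r + q) with
  | false => rfl
  | true =>
    have hmem : r + q ∈ L 10 4 := by simpa using hc
    have h3 := l4_pc4
    rw [allR_eq, List.all_eq_true] at h3
    have h4 := h3 _ hmem
    rw [h4] at h2
    revert h2
    cases Nat.beq (Nat.land r (r + q)) r
    · intro h5
      exact h5
    · intro _
      rfl

theorem pair_testBit : ∀ z w : Fin 10, z ≠ w → ∀ i : Fin 13,
    Nat.testBit (2 ^ z.val + 2 ^ w.val) i.val = (Nat.beq i.val z.val || Nat.beq i.val w.val) := by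
  decide +kernel

theorem ofMask_pair : ∀ z w : Fin 10, z ≠ w →
    ofMask (2 ^ z.val + 2 ^ w.val) = {z.castLE (by norm_num), w.castLE (by norm_num)} := by
  intro z w h
  ext i
  unfold ofMask
  rw [mem_filter, pair_testBit z w h i, mem_insert, mem_singleton, Fin.ext_iff, Fin.ext_iff,
    Bool.or_eq_true, Nat.beq_eq, Nat.beq_eq]
  simp only [mem_univ, true_and, Fin.val_castLE]

end Pool.Agent.Helper55.TY.M10
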