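import Pool.Agent.Helper55.TY.M10
import Pool.Agent.Helper63.TY.Comp

/-!
MP_8ee768_co, project TH-Y': the search machine M10 as a step with state and continuation
(`Helper63.TY.Cb`); the state is the stream of branching quads.
-/

set_option autoImplicit false

namespace Pool.Agent.Helper55.TY.M10

open Finset Pool.Agent.Helper63.SIMD Pool.Agent.Helper97.CV
open Pool.Agent.Helper97.CV.Kill10 (P2)
open Pool.Agent.Helper63.TY (Cb Acc)
open Pool.Agent.Helper89.CV (OddCover ofMask)

/-- the machine from the start state: parities `P`, pair word `f`; the state is the stream -/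
def mcb (K : ℕ → Bool) (P f : ℕ) : Cb := fun s c =>
  force s (run K 60 s P cB f) fun s' => @Nat.rec (fun _ => Bool) false (fun _ _ => c s') s'

/-- `P` and `f` are the words of the blocks of `B` meeting `{10, 11, 12}` -/
structure Start (K : ℕ → Bool) (P f : ℕ) (B : Finset Blk) : Prop where
  odd : OddCover B
  kill : KillOK K B
  par : P = g (Rk B 10) ^^^ g (Rk B 11) ^^^ g (Rk B 12)
  pair : ∃ p : ℕ → ℕ, f = pk 8 1024 p ∧ (∀ r ∈ P2, p r ≤ Lam (Dec B B5) (ofMask r)) ∧
    ∀ r, r ∉ P2 → p r = 0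

theorem Start.run_eq {K : ℕ → Bool} {P f : ℕ} {B : Finset Blk} (h : Start K P f B) (d s : ℕ) :
    run K d s P cB f = 0 := by
  obtain ⟨p, hf, hp, hp0⟩ := h.pair
  rw [h.par, hf]
  exact run_start h.odd h.kill hp hp0 d s

theorem mcb_cases {K : ℕ → Bool} {P f s : ℕ} {c : ℕ → Bool} (h : mcb K P f s c = true) :
    run K 60 s P cB f ≠ 0 ∧ c (run K 60 s P cB f) = true := by
  unfold mcb at h
  rw [force_eq] at h
  revert h
  generalize run K 60 s P cB f = x
  cases x with
  | zero =>
    intro h
    exact absurd h Bool.false_ne_true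
  | succ x =>
    intro h
    exact ⟨Nat.succ_ne_zero x, h⟩

theorem mcb_dead {K : ℕ → Bool} {P f s : ℕ} {c : ℕ → Bool} (h : mcb K P f s c = true)
    {B : Finset Blk} (hS : Start K P f B) : False :=
  (mcb_cases h).1 (hS.run_eq 60 s)

/-- THE LAW OF THE MACHINE -/
theorem acc_mcb {K : ℕ → Bool} {P f : ℕ} {C : Finset Blk → Prop}
    (h : ∀ B, C B → Start K P f B) : Acc (∀ B, C B → False) (mcb K P f) :=
  fun _ _ hs => ⟨fun B hB => mcb_dead hs (h B hB), _, (mcb_cases hs).2⟩

/-- `if kill then continue else machine` -/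
def kcb (k : Bool) (K : ℕ → Bool) (P f : ℕ) : Cb := fun s c =>
  @Bool.rec (fun _ => Bool) (mcb K P f s c) (c s) k

theorem acc_kcb {k : Bool} {K : ℕ → Bool} {P f : ℕ} {C : Finset Blk → Prop}
    (hk : k = true → ∀ B, C B → False) (h : ∀ B, C B → Start K P f B) :
    Acc (∀ B, C B → False) (kcb k K P f) := by
  intro s c hs
  unfold kcb at hs
  cases k with
  | false => exact acc_mcb h s c hs
  | true => exact ⟨hk rfl, s, hs⟩

theorem Start.kill_eq {K : ℕ → Bool} {P f : ℕ} {B : Finset Blk} (h : Start K P f B) :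
    K f = false := by
  obtain ⟨p, hf, hp, hp0⟩ := h.pair
  rw [hf]
  exact h.kill p (fun r hr => (hp r hr).trans (Lam_mono (Dec_subset B B5) _)) hp0

/-- the whole callback: `if kill f then go on else machine` -/
def fcb (K : ℕ → Bool) (P f : ℕ) : Cb := kcb (K f) K P f

theorem acc_fcb {K : ℕ → Bool} {P f : ℕ} {C : Finset Blk → Prop}
    (h : ∀ B, C B → Start K P f B) : Acc (∀ B, C B → False) (fcb K P f) := by
  refine acc_kcb (fun hk B hB => ?_) h
  rw [(h B hB).kill_eq] at hk
  exact Bool.false_ne_true hk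

end Pool.Agent.Helper55.TY.M10
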