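import Pool.Agent.Helper55.TY.M11Run
import Pool.Agent.Helper55.TY.GCube
import Pool.Agent.Helper55.TY.Dead
import Pool.Agent.Helper64.TY.M11Tab
import Pool.Agent.Helper79.CV.Enc

/-!
MP_8ee768_co, project TH-Y': soundness of the search machine M11.
-/

set_option autoImplicit false
set_option exponentiation.threshold 40000

namespace Pool.Agent.Helper55.TY.M11

open Finset Pool.Agent.Helper63.SIMD Pool.Agent.Helper97.CV Pool.Agent.Helper97.CV.Cube11
open Pool.Agent.Helper97.CV.Kill11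
open Pool.Agent.Helper79.CV (L mk mem_L nodup_L lt_of_mem_L ofMask_subset ofMask_mk mk_ofMask
  ofMask_injOn mk_injective)
open Pool.Agent.Helper89.CV (OddCover ofMask)

theorem force_eq {α : Type} (k E : ℕ) (f : ℕ → α) : force k E f = f E := by
  unfold force sc
  cases E <;> rfl

theorem raw_land (a b : ℕ) : Nat.land a b = a &&& b := rfl
theorem raw_xor (a b : ℕ) : Nat.xor a b = a ^^^ b := rfl
theorem raw_shr (a b : ℕ) : Nat.shiftRight a b = a >>> b := rfl
theorem raw_mul (a b : ℕ) : Nat.mul a b = a * b := rfl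
theorem raw_add (a b : ℕ) : Nat.add a b = a + b := rfl
theorem raw_sub (a b : ℕ) : Nat.sub a b = a - b := rfl
theorem raw_mod (a b : ℕ) : Nat.mod a b = a % b := rfl

/-- masks of the quads of outside points -/
def Q4 : Finset ℕ := (L 11 4).toFinset

/-- masks of the blocks of outside points -/
def B5 : Finset ℕ := (L 11 5).toFinset

theorem g_toFinset (l : List ℕ) (hl : l.Nodup) : g l.toFinset = (l.map fun r => 2 ^ (8 * r)).sum := by
  unfold g
  exact List.sum_toFinset _ hl

theorem pk_onS {S : Finset ℕ} (hS : ∀ r ∈ S, r < 2048) (c : ℕ) :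
    pk 8 2048 (onS S c) = c * g S := by
  rw [g_eq_pk hS, mul_pk]
  refine pk_congr fun r _ => ?_
  unfold onS ind
  split_ifs <;> simp

theorem pk_onS_one {S : Finset ℕ} (hS : ∀ r ∈ S, r < 2048) : pk 8 2048 (onS S 1) = g S := by
  rw [pk_onS hS, one_mul]

theorem Q4_lt {r : ℕ} (h : r ∈ Q4) : r < 2048 := lt_of_mem_L (List.mem_toFinset.1 h)

theorem B5_lt {r : ℕ} (h : r ∈ B5) : r < 2048 := lt_of_mem_L (List.mem_toFinset.1 h)

theorem cQ_eq : cQ = g Q4 := by
  unfold Q4
  rw [g_toFinset _ (nodup_L _ _)]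
  decide +kernel

theorem cB_eq : cB = g B5 := by
  unfold B5
  rw [g_toFinset _ (nodup_L _ _)]
  decide +kernel

theorem cC8_eq : cC8 = g P1 := by
  unfold P1
  rw [g_toFinset _ (nodup_L _ _)]
  decide +kernel

theorem cQM_eq : cQM = pk 8 2048 (onS Q4 255) := by
  rw [pk_onS fun r hr => Q4_lt hr, ← cQ_eq]
  decide +kernel

theorem gP2 : g P2 = cO2 := by
  unfold P2
  rw [g_toFinset _ (nodup_L _ _)]
  decide +kernel

theorem cM2_eq : cM2 = pk 8 2048 (onS P2 255) := by
  rw [pk_onS fun r hr => P2_lt hr, gP2]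
  decide +kernel

theorem corrC_toFinset (E : ℕ) (l : List ℕ) (hl : l.Nodup) :
    corrC E l.toFinset = (l.map fun p => 2 ^ (8 * (E - p))).sum := by
  unfold corrC
  exact List.sum_toFinset _ hl

theorem cC1_eq : cC1 = corrC 1024 P1 := by
  unfold P1
  rw [corrC_toFinset _ _ (nodup_L _ _)]
  decide +kernel

theorem cC2_eq : cC2 = corrC 2047 P2 := by
  unfold P2
  rw [corrC_toFinset _ _ (nodup_L _ _)]
  decide +kernel

theorem rep_one : rep 32768 1 = 1 := by
  rw [rep_eq (by norm_num), pk_succ, pk_zero]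
  norm_num

/-- helper97's correlation, one lane -/
theorem corr1 {E : ℕ} {Ps Rs : Finset ℕ} (hE : E ≤ 2047) (hP : ∀ p ∈ Ps, p ≤ E)
    {w : ℕ → ℕ} {c : ℕ} (hw : ∀ r < 2048, w r ≤ c) (hc : Ps.card * c < 2 ^ 8)
    (hRs : ∀ r ∈ Rs, r < 2048) :
    ((pk 8 2048 w * corrC E Ps) >>> (8 * E)) &&& pk 8 2048 (onS Rs 255) =
      pk 8 2048 (fun r => if r ∈ Rs then ∑ p ∈ Ps, KillW.ext 2048 w (r + p) else 0) := by
  have h := cube_corr (n := 1) (w := fun _ => w) hE hP (fun _ _ r hr => hw r hr) hc hRs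
  rw [cube_one, cube_one, rep_one, mul_one] at h
  exact h

theorem ext_ind {S : Finset ℕ} (hS : ∀ r ∈ S, r < 2048) (j : ℕ) :
    KillW.ext 2048 (ind S) j = if j ∈ S then 1 else 0 := by
  unfold KillW.ext ind
  by_cases h : j ∈ S
  · rw [if_pos (hS j h)]
  · rw [if_neg h]
    split_ifs <;> rfl

/-! ### the quads of a block -/

theorem sub45_iff {r m : ℕ} (hr : r ∈ Q4) (hm : m ∈ B5) :
    ofMask r ⊆ ofMask m ↔ ∃ p ∈ P1, r + p = m :=
  Pool.Agent.Helper64.TY.M11Tab.sub45_iff hr hm

/-- the quads of the block `m` -/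
def Qs (m : ℕ) : Finset ℕ := Q4.filter fun r => ofMask r ⊆ ofMask m

theorem quads_word {m : ℕ} (hm : m ∈ B5) :
    Nat.land (Nat.shiftRight (Nat.mul cC1 (g {m})) 8192) cQM = g (Qs m) := by
  have hlt := B5_lt hm
  have h1 : g {m} = pk 8 2048 (ind {m}) := g_eq_pk fun r hr => by
    rw [mem_singleton] at hr
    rw [hr]
    exact hlt
  have h := corr1 (E := 1024) (Ps := P1) (Rs := Q4) (by norm_num) (fun p hp => P1_le hp)
    (w := ind {m}) (c := 1) (fun r _ => ind_le _ r) (by rw [P1_card]; norm_num)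
    (fun r hr => Q4_lt hr)
  have e5 : (8192 : ℕ) = 8 * 1024 := by norm_num
  rw [raw_land, raw_shr, raw_mul, cQM_eq, cC1_eq, h1, mul_comm, e5, h,
    g_eq_pk (S := Qs m) (N := 2048) fun r hr => Q4_lt (mem_filter.1 hr).1]
  refine pk_congr fun r _ => ?_
  by_cases hr : r ∈ Q4
  · have hS : ∀ r ∈ ({m} : Finset ℕ), r < 2048 := fun r hr => by
      rw [mem_singleton] at hr
      rw [hr]
      exact hlt
    rw [if_pos hr, sum_congr rfl fun p _ => ext_ind hS (r + p)]
    unfold ind Qs
    simp only [mem_filter, hr, true_and, mem_singleton]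
    by_cases h2 : ofMask r ⊆ ofMask m
    · rw [if_pos h2]
      obtain ⟨p, hp, hpm⟩ := (sub45_iff hr hm).1 h2
      rw [sum_eq_single_of_mem p hp, if_pos hpm]
      intro p' _ hne
      rw [if_neg]
      omega
    · rw [if_neg h2]
      refine sum_eq_zero fun p hp => ?_
      rw [if_neg]
      exact fun h3 => h2 ((sub45_iff hr hm).2 ⟨p, hp, h3⟩)
  · unfold ind Qs
    rw [if_neg hr, if_neg]
    rw [mem_filter]
    exact fun h2 => hr h2.1

/-- the free blocks through a quad -/
def Cand (S : Finset ℕ) (q : ℕ) : Finset ℕ := S.filter fun m => ∃ p ∈ P1, q + p = m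

theorem cand_word (S : Finset ℕ) (q : ℕ) :
    Nat.land (g S) (Nat.mul cC8 (2 ^ (8 * q))) = g (Cand S q) := by
  rw [raw_land, raw_mul, cC8_eq, g_mul_pow, g_land]
  refine congrArg g ?_
  ext m
  unfold Cand
  simp only [mem_inter, mem_image, mem_filter]

/-! ### the pair word -/

theorem sub24_imp {r q : ℕ} (hr : r ∈ P2) (hq : q ∈ P2) (h4 : r + q ∈ Q4) :
    ofMask r ⊆ ofMask (r + q) :=
  Pool.Agent.Helper64.TY.M11Tab.sub24_imp hr hq h4

/-- the pair counts of a set of quads -/
def pairF (W : Finset ℕ) (r : ℕ) : ℕ :=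
  if r ∈ P2 then ∑ q ∈ P2, KillW.ext 2048 (ind W) (r + q) else 0

theorem pair_word {W : Finset ℕ} (hW : W ⊆ Q4) :
    Nat.land (Nat.shiftRight (Nat.mul (g W) cC2) 16376) cM2 = pk 8 2048 (pairF W) := by
  have h1 : g W = pk 8 2048 (ind W) := g_eq_pk fun r hr => Q4_lt (hW hr)
  have h := corr1 (E := 2047) (Ps := P2) (Rs := P2) (by norm_num) (fun p hp => P2_le hp)
    (w := ind W) (c := 1) (fun r _ => ind_le _ r) (by rw [P2_card]; norm_num)
    (fun r hr => P2_lt hr)
  have e5 : (16376 : ℕ) = 8 * 2047 := by norm_num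
  rw [raw_land, raw_shr, raw_mul, cM2_eq, cC2_eq, h1, e5, h]
  refine pk_congr fun r _ => ?_
  unfold pairF
  rfl

theorem pairF_le {W : Finset ℕ} (hW : W ⊆ Q4) {r : ℕ} (hr : r ∈ P2) :
    pairF W r ≤ (W.filter fun w => ofMask r ⊆ ofMask w).card := by
  unfold pairF
  rw [if_pos hr]
  have h1 : ∀ q ∈ P2, KillW.ext 2048 (ind W) (r + q) = if r + q ∈ W then 1 else 0 :=
    fun q _ => ext_ind (fun r hr => Q4_lt (hW hr)) (r + q)
  rw [sum_congr rfl h1, ← card_filter]
  refine card_le_card_of_injOn (fun q => r + q) ?_ fun a _ b _ h => Nat.add_left_cancel h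
  intro q hq
  rw [mem_coe, mem_filter] at hq
  rw [mem_coe, mem_filter]
  exact ⟨hq.2, sub24_imp hr hq.1 (hW hq.2)⟩

/-! ### states -/

theorem prop1 {a o s : Prop} (hs : s) :
    ((a ∧ o) ∧ ¬(a ∧ s) ∨ (a ∧ s) ∧ ¬(a ∧ o)) ↔ a ∧ ¬ o := by tauto

theorem prop2 {a o s : Prop} (hs : ¬ s) :
    ((a ∧ o) ∧ ¬(a ∧ s) ∨ (a ∧ s) ∧ ¬(a ∧ o)) ↔ a ∧ o := by tauto

/-- the decided blocks of `B` -/
def Dec (B : Finset Blk) (F : Finset ℕ) : Finset Blk := B.filter fun b => mk b ∉ F

/-- the meaning of a state: parities `SP`, free blocks `SF`, pair word `p` -/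
structure Inv (B : Finset Blk) (SP SF : Finset ℕ) (p : ℕ → ℕ) : Prop where
  free : SF ⊆ B5
  par : ∀ r, r ∈ SP ↔ r ∈ Q4 ∧ Odd (cnt (Dec B SF) (ofMask r))
  pair : ∀ r ∈ P2, p r ≤ Lam (Dec B SF) (ofMask r)
  zero : ∀ r, r ∉ P2 → p r = 0

theorem Dec_subset (B : Finset Blk) (F : Finset ℕ) : Dec B F ⊆ B := filter_subset _ _

theorem lt13 {m : ℕ} (hm : m < 2048) : m < 2 ^ 13 := lt_of_lt_of_le hm (by norm_num)

theorem Dec_erase_in {B : Finset Blk} {F : Finset ℕ} {m : ℕ} (hF : F ⊆ B5) (hm : m ∈ F)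
    (hB : ofMask m ∈ B) :
    Dec B (F.erase m) = insert (ofMask m) (Dec B F) ∧ ofMask m ∉ Dec B F := by
  have hmk : mk (ofMask m) = m := mk_ofMask (lt13 (B5_lt (hF hm)))
  constructor
  · ext b
    unfold Dec
    rw [mem_insert, mem_filter, mem_filter, mem_erase, not_and_or, not_not]
    constructor
    · rintro ⟨h1, h2 | h2⟩
      · left
        rw [← ofMask_mk b, h2]
      · exact Or.inr ⟨h1, h2⟩
    · rintro (h1 | ⟨h1, h2⟩)
      · rw [h1]
        exact ⟨hB, Or.inl hmk⟩
      · exact ⟨h1, Or.inr h2⟩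
  · unfold Dec
    rw [mem_filter, hmk]
    exact fun h => h.2 hm

theorem Dec_erase_out {B : Finset Blk} {F : Finset ℕ} {m : ℕ} (hB : ofMask m ∉ B) :
    Dec B (F.erase m) = Dec B F := by
  unfold Dec
  refine filter_congr fun b hb => ?_
  rw [mem_erase, not_and_or, not_not]
  constructor
  · rintro (h1 | h1)
    · exact absurd (by rw [← h1, ofMask_mk]; exact hb) hB
    · exact h1
  · exact Or.inr

theorem Inv.out {B : Finset Blk} {SP SF : Finset ℕ} {p : ℕ → ℕ} (h : Inv B SP SF p) {m : ℕ}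
    (hB : ofMask m ∉ B) : Inv B SP (SF.erase m) p where
  free := (erase_subset _ _).trans h.free
  par r := by rw [Dec_erase_out hB]; exact h.par r
  pair r hr := by rw [Dec_erase_out hB]; exact h.pair r hr
  zero := h.zero

theorem Inv.into {B : Finset Blk} {SP SF : Finset ℕ} {p : ℕ → ℕ} (h : Inv B SP SF p) {m : ℕ}
    (hm : m ∈ SF) (hB : ofMask m ∈ B) :
    Inv B (symmDiff SP (Qs m)) (SF.erase m) (fun r => pairF (Qs m ∩ SP) r + p r) := by
  obtain ⟨e1, e2⟩ := Dec_erase_in h.free hm hB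
  have hQ : Qs m ∩ SP ⊆ Q4 := fun r hr => (mem_filter.1 (mem_inter.1 hr).1).1
  refine ⟨(erase_subset _ _).trans h.free, fun r => ?_, fun r hr => ?_, fun r hr => ?_⟩
  · rw [e1, cnt_insert e2, mem_symmDiff, h.par r]
    unfold Qs
    rw [mem_filter]
    by_cases hs : ofMask r ⊆ ofMask m
    · rw [if_pos hs, Nat.odd_add_one]
      exact prop1 hs
    · rw [if_neg hs, Nat.add_zero]
      exact prop2 hs
  · rw [e1, Lam_insert e2, Nat.add_comm]
    refine Nat.add_le_add (h.pair r hr) ((pairF_le hQ hr).trans ?_)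
    refine card_le_card_of_injOn (fun w => ofMask w) ?_ ?_
    · intro w hw
      rw [mem_coe, mem_filter, mem_inter] at hw
      obtain ⟨⟨hw1, hw2⟩, hw3⟩ := hw
      have hw4 := mem_filter.1 hw1
      rw [mem_coe]
      unfold newBad
      rw [mem_filter, mem_quads]
      exact ⟨((mem_L (by norm_num)).1 (List.mem_toFinset.1 hw4.1)).2, hw3, hw4.2,
        ((h.par w).1 hw2).2⟩
    · intro a ha b hb hab
      rw [mem_coe, mem_filter] at ha hb
      exact ofMask_injOn (lt13 (Q4_lt (hQ ha.1))) (lt13 (Q4_lt (hQ hb.1))) hab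
  · show pairF _ r + p r = 0
    rw [h.zero r hr]
    unfold pairF
    rw [if_neg hr]

/-! ### the search -/

theorem run_succ (K : ℕ → Bool) (d c P FR f : ℕ) : run K (d + 1) c P FR f =
    force c P fun P => force c FR fun FR => force c f fun f =>
    (fun Q =>
      @Nat.rec (fun _ => ℕ) 0 (fun _ _ => force c (Nat.div c 2048) fun c' =>
        childs K (run K d) P f 8 c' (Nat.land FR (Nat.mul cC8 Q)) FR)
        (Nat.land (Nat.xor cQ P) Q))
    (Nat.pow 2 (Nat.mul 8 (Nat.mod c 2048))) := rfl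

theorem childs_succ_zero (K : ℕ → Bool) (rn : ℕ → ℕ → ℕ → ℕ → ℕ) (P f n c FR : ℕ) :
    childs K rn P f (n + 1) c 0 FR = c := rfl

theorem childs_succ_succ (K : ℕ → Bool) (rn : ℕ → ℕ → ℕ → ℕ → ℕ) (P f n c e FR : ℕ) :
    childs K rn P f (n + 1) c (e + 1) FR =
      (fun b => (fun E' FR' t => (fun W =>
        @Nat.rec (fun _ => ℕ)
          (force (Nat.add n c) (rn c (Nat.xor P t) FR' f) fun c' => childs K rn P f n c' E' FR')
          (fun _ _ => (fun f' =>
            @Bool.rec (fun _ => ℕ)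
              (force (Nat.add n c) (rn c (Nat.xor P t) FR' f') fun c' =>
                childs K rn P f n c' E' FR')
              (childs K rn P f n c E' FR') (K f'))
            (Nat.add (Nat.land (Nat.shiftRight (Nat.mul W cC2) 16376) cM2) f)) W)
        (Nat.land t P))
        (Nat.land (e + 1) e) (Nat.xor FR b)
        (Nat.land (Nat.shiftRight (Nat.mul cC1 b) 8192) cQM))
      (Nat.land (e + 1) (Nat.xor (e + 1) e)) := rfl

theorem childs_zero (K : ℕ → Bool) (rn : ℕ → ℕ → ℕ → ℕ → ℕ) (hrn : ∀ P F f, rn 0 P F f = 0)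
    (P f n : ℕ) : ∀ E F, childs K rn P f n 0 E F = 0 := by
  induction n with
  | zero => exact fun _ _ => rfl
  | succ n ih =>
    intro E F
    cases E with
    | zero => exact childs_succ_zero ..
    | succ e =>
      rw [childs_succ_succ]
      simp only [force_eq, hrn, ih]
      generalize Nat.land _ P = W
      cases W with
      | zero => rfl
      | succ w =>
        show @Bool.rec (fun _ => ℕ) 0 0 _ = 0
        generalize K _ = b
        cases b <;> rfl

theorem run_zero (K : ℕ → Bool) (d : ℕ) : ∀ P F f, run K d 0 P F f = 0 := by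
  induction d with
  | zero => exact fun _ _ _ => rfl
  | succ d ih =>
    intro P F f
    rw [run_succ]
    simp only [force_eq]
    have e : Nat.div 0 2048 = 0 := rfl
    rw [e]
    generalize Nat.land (Nat.xor cQ P) _ = x
    cases x with
    | zero => rfl
    | succ x => exact childs_zero K _ ih _ _ _ _ _

/-- the kill test is sound for `B` -/
def KillOK (K : ℕ → Bool) (B : Finset Blk) : Prop :=
  ∀ p : ℕ → ℕ, (∀ r ∈ P2, p r ≤ Lam B (ofMask r)) → (∀ r, r ∉ P2 → p r = 0) →
    K (pk 8 2048 p) = false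

theorem Inv.lam {B : Finset Blk} {SP SF : Finset ℕ} {p : ℕ → ℕ} (h : Inv B SP SF p) {r : ℕ}
    (hr : r ∈ P2) : p r ≤ Lam B (ofMask r) :=
  (h.pair r hr).trans (Lam_mono (Dec_subset B SF) _)

theorem childs_sound {K : ℕ → Bool} {B : Finset Blk} (hK : KillOK K B)
    {rn : ℕ → ℕ → ℕ → ℕ → ℕ} (hrn0 : ∀ P F f, rn 0 P F f = 0)
    (hrn : ∀ c SP SF p, Inv B SP SF p → rn c (g SP) (g SF) (pk 8 2048 p) = 0)
    {SP : Finset ℕ} {p : ℕ → ℕ} (n : ℕ) : ∀ (c : ℕ) (SE SF : Finset ℕ), SE ⊆ SF →
    Inv B SP SF p → (∃ m ∈ SE, ofMask m ∈ B) →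
    childs K rn (g SP) (pk 8 2048 p) n c (g SE) (g SF) = 0 := by
  induction n with
  | zero => exact fun _ _ _ _ _ _ => rfl
  | succ n ih =>
    intro c SE SF hsub hinv hex
    have hne : SE.Nonempty := by
      obtain ⟨m, hm, _⟩ := hex
      exact ⟨m, hm⟩
    obtain ⟨m, hm, hmin⟩ : ∃ m ∈ SE, ∀ r ∈ SE, m ≤ r :=
      ⟨SE.min' hne, SE.min'_mem hne, fun r hr => SE.min'_le r hr⟩
    obtain ⟨e, he⟩ : ∃ e, g SE = e + 1 := by
      refine Nat.exists_eq_succ_of_ne_zero fun h => ?_
      rw [g_eq_zero] at h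
      exact hne.ne_empty h
    obtain ⟨hl1, hl2⟩ := g_low hm hmin
    have he' : g SE - 1 = e := by omega
    rw [he'] at hl1 hl2
    have hmF := hsub hm
    have hm5 := hinv.free hmF
    have hFR : g SF ^^^ g {m} = g (SF.erase m) := by
      rw [g_xor]
      congr 1
      ext r
      rw [mem_symmDiff, mem_singleton, mem_erase]
      constructor
      · rintro (⟨h1, h2⟩ | ⟨h1, h2⟩)
        · exact ⟨h2, h1⟩
        · rw [h1] at h2
          exact absurd hmF h2
      · rintro ⟨h1, h2⟩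
        exact Or.inl ⟨h2, h1⟩
    have ht := quads_word hm5
    have hP' : g SP ^^^ g (Qs m) = g (symmDiff SP (Qs m)) := g_xor _ _
    have hW : g (Qs m) &&& g SP = g (Qs m ∩ SP) := g_land _ _
    have hQ : Qs m ∩ SP ⊆ Q4 := fun r hr => (mem_filter.1 (mem_inter.1 hr).1).1
    -- unfold one step
    have step : childs K rn (g SP) (pk 8 2048 p) (n + 1) c (g SE) (g SF) =
        @Nat.rec (fun _ => ℕ)
          (force (Nat.add n c) (rn c (g (symmDiff SP (Qs m))) (g (SF.erase m)) (pk 8 2048 p))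
            fun c' => childs K rn (g SP) (pk 8 2048 p) n c' (g (SE.erase m)) (g (SF.erase m)))
          (fun _ _ => @Bool.rec (fun _ => ℕ)
            (force (Nat.add n c) (rn c (g (symmDiff SP (Qs m))) (g (SF.erase m))
              (pk 8 2048 (fun r => pairF (Qs m ∩ SP) r + p r)))
              fun c' => childs K rn (g SP) (pk 8 2048 p) n c' (g (SE.erase m)) (g (SF.erase m)))
            (childs K rn (g SP) (pk 8 2048 p) n c (g (SE.erase m)) (g (SF.erase m)))
            (K (pk 8 2048 (fun r => pairF (Qs m ∩ SP) r + p r))))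
          (g (Qs m ∩ SP)) := by
      rw [he, childs_succ_succ]
      have a1 : Nat.land (e + 1) (Nat.xor (e + 1) e) = g {m} := by
        rw [← he]
        exact hl2
      have a2 : Nat.land (e + 1) e = g (SE.erase m) := by
        rw [← he]
        exact hl1
      have a3 : Nat.xor (g SF) (g {m}) = g (SF.erase m) := hFR
      have a4 : Nat.xor (g SP) (g (Qs m)) = g (symmDiff SP (Qs m)) := hP'
      have a5 : Nat.land (g (Qs m)) (g SP) = g (Qs m ∩ SP) := hW
      have a6 : Nat.add (pk 8 2048 (pairF (Qs m ∩ SP))) (pk 8 2048 p) =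
          pk 8 2048 (fun r => pairF (Qs m ∩ SP) r + p r) := pk_add
      simp only [a1, a2, a3, ht, a4, a5, pair_word hQ, a6]
    rw [step]
    by_cases hB : ofMask m ∈ B
    · have hinv' := hinv.into hmF hB
      have hk := hK (fun r => pairF (Qs m ∩ SP) r + p r) (fun r hr => hinv'.lam hr) hinv'.zero
      by_cases hW0 : Qs m ∩ SP = ∅
      · rw [hW0, g_empty]
        show force _ _ _ = 0
        have hinv2 : Inv B (symmDiff SP (Qs m)) (SF.erase m) p := by
          refine ⟨hinv'.free, hinv'.par, fun r hr => ?_, hinv.zero⟩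
          have h1 := hinv'.pair r hr
          exact (Nat.le_add_left _ _).trans h1
        rw [force_eq, hrn _ _ _ _ hinv2]
        exact childs_zero K rn hrn0 _ _ _ _ _
      · obtain ⟨w, hw⟩ : ∃ w, g (Qs m ∩ SP) = w + 1 :=
          Nat.exists_eq_succ_of_ne_zero fun h => hW0 (g_eq_zero.1 h)
        rw [hw]
        show @Bool.rec (fun _ => ℕ) _ _ (K _) = 0
        rw [hk]
        show force _ _ _ = 0
        rw [force_eq, hrn _ _ _ _ hinv']
        exact childs_zero K rn hrn0 _ _ _ _ _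
    · have hinv' := hinv.out hB
      have hex' : ∃ m' ∈ SE.erase m, ofMask m' ∈ B := by
        obtain ⟨m', h1, h2⟩ := hex
        refine ⟨m', mem_erase.2 ⟨?_, h1⟩, h2⟩
        rintro rfl
        exact hB h2
      have hsub' : SE.erase m ⊆ SF.erase m := erase_subset_erase _ hsub
      generalize g (Qs m ∩ SP) = W
      cases W with
      | zero =>
        show force _ _ _ = 0
        rw [force_eq]
        exact ih _ _ _ hsub' hinv' hex'
      | succ w =>
        show @Bool.rec (fun _ => ℕ) _ _ (K _) = 0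
        generalize K _ = b
        cases b with
        | false =>
          show force _ _ _ = 0
          rw [force_eq]
          exact ih _ _ _ hsub' hinv' hex'
        | true => exact ih _ _ _ hsub' hinv' hex'

/-- an even quad has a free block of `B` -/
theorem exists_free {B : Finset Blk} (hB : OddCover B) {SF : Finset ℕ} (hF : SF ⊆ B5) {q : ℕ}
    (hq : q ∈ Q4) (he : ¬ Odd (cnt (Dec B SF) (ofMask q))) :
    ∃ m ∈ Cand SF q, ofMask m ∈ B := by
  by_contra hcon
  apply he
  have hq4 : (ofMask q).card = 4 := ((mem_L (by norm_num)).1 (List.mem_toFinset.1 hq)).2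
  have h1 := hB.2 (ofMask q) hq4
  have h2 : cnt (Dec B SF) (ofMask q) = (B.filter fun b => ofMask q ⊆ b).card := by
    unfold cnt Dec
    rw [filter_filter]
    congr 1
    refine filter_congr fun b hb => ?_
    constructor
    · exact fun h => h.2
    · intro h
      refine ⟨fun hbF => hcon ⟨mk b, ?_, by rw [ofMask_mk]; exact hb⟩, h⟩
      unfold Cand
      rw [mem_filter]
      refine ⟨hbF, ?_⟩
      rw [← sub45_iff hq (hF hbF), ofMask_mk]
      exact h
  rw [h2]
  exact h1

/-- SOUNDNESS: on a state of an odd cover with sound kill test the machine returns 0 -/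
theorem run_sound {K : ℕ → Bool} {B : Finset Blk} (hB : OddCover B) (hK : KillOK K B) (d : ℕ) :
    ∀ (c : ℕ) (SP SF : Finset ℕ) (p : ℕ → ℕ), Inv B SP SF p →
      run K d c (g SP) (g SF) (pk 8 2048 p) = 0 := by
  induction d with
  | zero => exact fun _ _ _ _ _ => rfl
  | succ d ih =>
    intro c SP SF p hinv
    rw [run_succ]
    simp only [force_eq]
    show @Nat.rec (fun _ => ℕ) 0 (fun _ _ =>
      childs K (run K d) (g SP) (pk 8 2048 p) 8 (Nat.div c 2048) (Nat.land (g SF) (Nat.mul cC8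
        (2 ^ (8 * (c % 2048))))) (g SF)) (Nat.land (Nat.xor cQ (g SP)) (2 ^ (8 * (c % 2048)))) = 0
    have e1 : Nat.land (Nat.xor cQ (g SP)) (2 ^ (8 * (c % 2048))) =
        g (symmDiff Q4 SP ∩ {c % 2048}) := by
      rw [← g_singleton, ← g_land, ← g_xor, ← cQ_eq, raw_land, raw_xor]
    rw [e1, cand_word]
    by_cases hq : c % 2048 ∈ symmDiff Q4 SP
    · have h4 : c % 2048 ∈ Q4 ∧ c % 2048 ∉ SP := by
        rcases mem_symmDiff.1 hq with h | h
        · exact h
        · exact absurd ((hinv.par _).1 h.1).1 h.2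
      obtain ⟨x, hx⟩ : ∃ x, g (symmDiff Q4 SP ∩ {c % 2048}) = x + 1 := by
        refine Nat.exists_eq_succ_of_ne_zero fun h => ?_
        rw [g_eq_zero] at h
        have h5 : c % 2048 ∈ symmDiff Q4 SP ∩ {c % 2048} :=
          mem_inter.2 ⟨hq, mem_singleton_self _⟩
        rw [h] at h5
        exact absurd h5 (notMem_empty _)
      rw [hx]
      show childs K (run K d) (g SP) (pk 8 2048 p) 8 (Nat.div c 2048) (g (Cand SF (c % 2048)))
        (g SF) = 0
      refine childs_sound hK (run_zero K d) ih 8 _ _ _ (filter_subset _ _) hinv ?_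
      refine exists_free hB hinv.free h4.1 fun ho => h4.2 ((hinv.par _).2 ⟨h4.1, ho⟩)
    · have h5 : symmDiff Q4 SP ∩ {c % 2048} = ∅ := by
        rw [inter_comm, singleton_inter_of_notMem hq]
      rw [h5, g_empty]
      exact rfl

/-! ### helper97's kill test -/

theorem kT_one (k : ℕ) : kT 1 k = (128 - k) * cO2 := by
  unfold kT
  rw [rep_one, mul_one, pk_onS fun r hr => P2_lt hr, gP2]

theorem kT2_eq : kT 1 2 = cT2 := by
  rw [kT_one]
  decide +kernel

theorem kT5_eq : kT 1 5 = cT5 := by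
  rw [kT_one]
  decide +kernel

theorem kT8_eq : kT 1 8 = cT8 := by
  rw [kT_one]
  decide +kernel

theorem kO2_eq : kO2 1 = cO2 := by
  unfold kO2
  rw [rep_one, mul_one, pk_onS_one fun r hr => P2_lt hr, gP2]

theorem kM1_eq : kM1 1 = cM1 := by
  unfold kM1
  rw [rep_one, mul_one, pk_onS fun r hr => P1_lt hr, ← cC8_eq]
  decide +kernel

theorem kH_eq : kH 1 = cH := by
  unfold kH
  rw [rep_one, mul_one, pk_onS fun r hr => P1_lt hr, ← cC8_eq]
  decide +kernel

theorem kEv_eq : kEv 1 = cEv := by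
  unfold kEv
  rw [rep_one, mul_one, pk_onS fun r hr => P1_lt hr, ← cC8_eq]
  decide +kernel

theorem kC1_eq : kC1 = cC1 := cC1_eq.symm

theorem kil_eq (T A Ls Lw f : ℕ) : kil T A Ls Lw f =
    kill1 kC2 (kM2 1) (kT 1 2) (kT 1 5) (kT 1 8) (kO2 1) kC1 (kM1 1) (kH 1) (kEv 1) T
      0 0 f A Ls Lw := by
  have e5 : 8 * 1024 = 8192 := by norm_num
  unfold kill1 resRun kil res
  rw [kT2_eq, kT5_eq, kT8_eq, kO2_eq, kC1_eq, kM1_eq, kH_eq, kEv_eq]
  simp only [raw_land, raw_xor, raw_shr, raw_mul, raw_add, raw_sub, raw_mod, Nat.zero_and,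
    zero_mul, Nat.zero_shiftRight, zero_add, e5]

theorem pk_zero_fun : pk 8 2048 (fun _ => 0) = 0 := by
  unfold pk
  simp

theorem Lam_le_empty (B : Finset Blk) (s : Blk) : Lam B s ≤ Lam B ∅ := by
  unfold Lam LamW
  refine sum_le_sum_of_subset ?_
  intro q hq
  rw [mem_filter] at hq ⊢
  exact ⟨hq.1, empty_subset q⟩

theorem fF_zero (p : ℕ → ℕ) (r : ℕ) : fF (fun _ => 0) (fun _ => 0) p r = p r := by
  unfold fF
  have h : ∑ q ∈ P2, KillW.ext 2048 (fun s => (fun _ => 0) s &&& (fun _ => 0) s) (r + q) = 0 := by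
    refine sum_eq_zero fun q _ => ?_
    unfold KillW.ext
    split_ifs
    · exact Nat.and_self 0
    · rfl
  rw [h]
  split_ifs
  · exact zero_add _
  · exact zero_add _

/-- the kill test `kil` is sound: `a` = row sums over `K` plus one, `l` = lower bounds -/
theorem kil_ok {B : Finset Blk} (hB : OddCover B) (h157 : B.card ≤ 157) {a l : ℕ → ℕ} {T : ℕ}
    (ha : ∀ r, a r ≤ 94) (hl : ∀ r, l r ≤ 127) (hl0 : ∀ r, r ∉ P1 → l r = 0)
    (hoff : ∀ z : Fin 13, z.val < 11 → a (2 ^ z.val) ≤ mm B z 11 + mm B z 12 + 1)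
    (hlow : ∀ z : Fin 13, z.val < 11 → l (2 ^ z.val) ≤ MM B z)
    (hT : 88 < T + (MM B 11 + MM B 12)) :
    KillOK (kil T (pk 8 2048 a) (pk 8 2048 (fun r => onS P1 128 r - l r)) (pk 8 2048 l)) B := by
  intro p hp hp0
  have h35 := Lam_empty_le hB h157
  rw [kil_eq]
  have hok : Ok (fun _ => 0) (fun _ => 0) p a l := by
    refine ⟨fun _ => Nat.zero_le _, fun _ => Nat.zero_le _, fun r => ?_, ha, hl, hl0⟩
    by_cases hr : r ∈ P2
    · exact ((hp r hr).trans ((Lam_le_empty B _).trans h35)).trans (by norm_num)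
    · rw [hp0 r hr]
      exact Nat.zero_le _
  have hs : Sound B (fun _ => 0) (fun _ => 0) p a l := by
    refine ⟨fun z w hz hw hzw => ?_, hoff, hlow⟩
    rw [fF_zero]
    by_cases hr : 2 ^ z.val + 2 ^ w.val ∈ P2
    · have h1 := hp _ hr
      have h3 : ofMask (2 ^ z.val + 2 ^ w.val) = {z, w} :=
        Pool.Agent.Helper33.TY.ofMask_pair hzw
      rw [h3, Lam_pair hB hzw] at h1
      omega
    · rw [hp0 _ hr]
      exact Nat.zero_le _
  have h := kill1_sound hB h157 hok hs hT
  rw [pk_zero_fun] at h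
  exact h

/-! ### the start -/

/-- the outside quads of the link of `k` -/
def Rk (B : Finset Blk) (k : Fin 13) : Finset ℕ := Q4.filter fun r => insert k (ofMask r) ∈ B

theorem mk_lt_outside {m : ℕ} (hm : m < 2048) (k : Fin 13) (hk : 11 ≤ k.val) : k ∉ ofMask m := by
  rw [Pool.Agent.Helper79.CV.mem_ofMask, Nat.testBit_eq_false_of_lt
    (lt_of_lt_of_le hm (by
      calc (2048 : ℕ) = 2 ^ 11 := by norm_num
        _ ≤ 2 ^ k.val := Nat.pow_le_pow_right (by norm_num) hk))]
  exact Bool.false_ne_true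

/-- a block through an outside quad, not inside the outside points -/
theorem block_split {B : Finset Blk} (hB : OddCover B) {r : ℕ} (hr : r ∈ Q4) :
    (Dec B B5).filter (fun b => ofMask r ⊆ b) =
      (({11, 12} : Finset (Fin 13)).filter fun k => insert k (ofMask r) ∈ B).image
        (fun k => insert k (ofMask r)) := by
  have hr4 : (ofMask r).card = 4 := ((mem_L (by norm_num)).1 (List.mem_toFinset.1 hr)).2
  ext b
  unfold Dec
  rw [mem_filter, mem_filter, mem_image]
  constructor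
  · rintro ⟨⟨h1, h2⟩, h3⟩
    have h5 := hB.1 b h1
    obtain ⟨k, hk⟩ : ∃ k, b \ ofMask r = {k} := by
      rw [← card_eq_one, card_sdiff_of_subset h3, h5, hr4]
    have hkb : k ∈ b ∧ k ∉ ofMask r := by
      have : k ∈ b \ ofMask r := by
        rw [hk]
        exact mem_singleton_self _
      exact mem_sdiff.1 this
    have hb : insert k (ofMask r) = b := by
      rw [insert_eq, ← hk]
      exact sdiff_union_of_subset h3
    have h10 : 11 ≤ k.val := by
      by_contra hlt
      apply h2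
      unfold B5
      rw [List.mem_toFinset, mem_L (by norm_num), ofMask_mk]
      refine ⟨?_, h5⟩
      rw [Pool.Agent.Helper79.CV.mk_lt_iff]
      intro x hx
      rw [← hb, mem_insert] at hx
      rcases hx with hx | hx
      · rw [hx]
        omega
      · by_contra hx10
        exact mk_lt_outside (Q4_lt hr) x (by omega) hx
    refine ⟨k, mem_filter.2 ⟨?_, by rw [hb]; exact h1⟩, hb⟩
    have hk13 := k.isLt
    rw [mem_insert, mem_singleton]
    rcases (by omega : k.val = 11 ∨ k.val = 12) with h | h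
    · exact Or.inl (Fin.ext h)
    · exact Or.inr (Fin.ext h)
  · rintro ⟨k, hk, rfl⟩
    rw [mem_filter] at hk
    refine ⟨⟨hk.2, fun h => ?_⟩, subset_insert _ _⟩
    have h1 := lt_of_mem_L (List.mem_toFinset.1 h)
    rw [Pool.Agent.Helper79.CV.mk_lt_iff] at h1
    have h2 := h1 k (mem_insert_self _ _)
    have h3 := hk.1
    rw [mem_insert, mem_singleton] at h3
    rcases h3 with rfl | rfl
    · exact absurd h2 (by decide)
    · exact absurd h2 (by decide)

theorem cnt_start {B : Finset Blk} (hB : OddCover B) {r : ℕ} (hr : r ∈ Q4) :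
    cnt (Dec B B5) (ofMask r) = (if insert 11 (ofMask r) ∈ B then 1 else 0) +
      (if insert 12 (ofMask r) ∈ B then 1 else 0) := by
  unfold cnt
  rw [block_split hB hr, card_image_of_injOn, card_filter]
  · rw [sum_insert (by decide), sum_singleton]
  · intro a ha b hb hab
    rw [mem_coe, mem_filter] at ha hb
    simp only at hab
    have h1 : a ∈ insert b (ofMask r) := by
      rw [← hab]
      exact mem_insert_self _ _
    rcases mem_insert.1 h1 with h2 | h2
    · exact h2
    · refine absurd h2 (mk_lt_outside (Q4_lt hr) a ?_)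
      have h3 := ha.1
      rw [mem_insert, mem_singleton] at h3
      rcases h3 with rfl | rfl <;> decide

/-- the parities at the start -/
theorem par_start {B : Finset Blk} (hB : OddCover B) (r : ℕ) :
    r ∈ symmDiff (Rk B 11) (Rk B 12) ↔ r ∈ Q4 ∧ Odd (cnt (Dec B B5) (ofMask r)) := by
  rw [mem_symmDiff]
  unfold Rk
  simp only [mem_filter]
  by_cases hr : r ∈ Q4
  · rw [cnt_start hB hr]
    by_cases h1 : insert 11 (ofMask r) ∈ B <;>
      by_cases h2 : insert 12 (ofMask r) ∈ B <;> simp only [hr, h1, h2, if_true, if_false,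
        true_and, and_true, and_false, not_true_eq_false, not_false_eq_true, or_false, or_true,
        or_self, false_iff, true_iff] <;> decide
  · simp only [hr, false_and, not_false_eq_true, and_true, or_self]

/-- START STATE: all outside blocks are free -/
theorem inv_start {B : Finset Blk} (hB : OddCover B) {p : ℕ → ℕ}
    (hp : ∀ r ∈ P2, p r ≤ Lam (Dec B B5) (ofMask r)) (hp0 : ∀ r, r ∉ P2 → p r = 0) :
    Inv B (symmDiff (Rk B 11) (Rk B 12)) B5 p :=
  ⟨subset_rfl, par_start hB, hp, hp0⟩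

/-- the machine on the start state of an odd cover returns 0 -/
theorem run_start {K : ℕ → Bool} {B : Finset Blk} (hB : OddCover B) (hK : KillOK K B) {p : ℕ → ℕ}
    (hp : ∀ r ∈ P2, p r ≤ Lam (Dec B B5) (ofMask r)) (hp0 : ∀ r, r ∉ P2 → p r = 0) (d c : ℕ) :
    run K d c (g (Rk B 11) ^^^ g (Rk B 12)) cB (pk 8 2048 p) = 0 := by
  rw [g_xor, cB_eq]
  exact run_sound hB hK d c _ _ _ (inv_start hB hp hp0)

end Pool.Agent.Helper55.TY.M11
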